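import Pool.Agent.H57.Rooms.Main

open Pool.Agent.MP_21f5b8_an

namespace Pool.Agent.Results.MP_21f5b8_an.RoomsPassages

/-- Negative answer to Q1 (with `N = 2`, `q = 4`): there is a bounded connected open set of the
plane (hence `4`-admissible; this is proved as well) with infinitely many `4`-eigenvalues having a
constant-sign eigenfunction. -/
theorem result : ∃ Ω : Set (EuclideanSpace ℝ (Fin 2)), IsOpen Ω ∧ IsConnected Ω ∧
    Bornology.IsBounded Ω ∧ QAdmissible 4 Ω ∧
    {lam : ℝ | HasConstantSignEigenfunction 4 Ω lam}.Infinite :=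
  Pool.Agent.H57.Rooms.main

end Pool.Agent.Results.MP_21f5b8_an.RoomsPassages
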